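import Pool.Agent.Helper46.T6.Stmts
import Pool.Agent.Helper88.T4.Peak

set_option autoImplicit false

/-! Module LAPF of the project T6: the Laplace method with the gauge fixing. -/

open Finset MeasureTheory Filter Topology

namespace Pool.Agent.Helper32.T6.Lap

open Pool.Agent.Helper15.T4 (IsPM PM cov IsMat nsq po)
open Pool.Agent.Helper15.T6 Pool.Agent.Helper46.T6
open Pool.Agent.Helper88.T4 (nsq_nonneg nsq_smul continuous_nsq norm_le_sqrt_nsq PG PG.const)

/-- the index type -/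
abbrev Ix (d K : ℕ) : Type := Fin K × Fin 2 → Fin d

theorem card_Ix (d K : ℕ) : (Fintype.card (Ix d K) : ℝ) = (d : ℝ) ^ (2 * K) := by
  rw [Fintype.card_fun, Fintype.card_prod, Fintype.card_fin, Fintype.card_fin, Fintype.card_fin]
  push_cast
  rw [mul_comm]

theorem cont_TJ (d K : ℕ) : Continuous (fun y : Ix d K → ℝ => PJ (Fin K × Fin 2) y) := by
  unfold PJ TJ
  fun_prop

theorem cont_fv (d K : ℕ) : Continuous (fvd d K) := by
  unfold fvd
  have h1 := cont_TJ d K
  have h2 := continuous_nsq (ι := Ix d K)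
  fun_prop

/-- the integrand -/
noncomputable def FF (d K N : ℕ) (y : Ix d K → ℝ) : ℝ :=
  fvd d K y ^ (2 * N) * Real.exp (-(N : ℝ) * nsq (fun a => y a - u0 d K a)) / Psid d K N y

theorem cont_FF (hPSC : ST_PSC) (d K N : ℕ) : Continuous (FF d K N) := by
  obtain ⟨h1, h2, -⟩ := hPSC d K N
  have h3 := cont_fv d K
  have h4 := continuous_nsq (ι := Ix d K)
  unfold FF
  apply Continuous.div _ h1 (fun x => (h2 x).ne')
  apply (h3.pow _).mul
  apply Real.continuous_exp.comp
  apply continuous_const.mul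
  apply h4.comp
  fun_prop

theorem FF_nonneg (hPSC : ST_PSC) (d K N : ℕ) (y : Ix d K → ℝ) : 0 ≤ FF d K N y := by
  have h2 := (hPSC d K N).2.1 y
  unfold FF
  have h3 : 0 ≤ fvd d K y ^ (2 * N) := by
    rw [pow_mul]
    positivity
  positivity

/-! ### Homogeneity -/

theorem TJ_smul (d K : ℕ) (hd : 2 ≤ d) (s : ℝ) (u h : Ix d K → ℝ) :
    TD2 (Fin K × Fin 2) u (s • h) (s • h) = s ^ 2 * TD2 (Fin K × Fin 2) u h h := by
  obtain ⟨e, rfl⟩ : ∃ e, d = e + 2 := ⟨d - 2, by omega⟩
  unfold TD2 TJ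
  rw [Finset.mul_sum]
  refine Finset.sum_congr rfl (fun π _ => ?_)
  rw [Fin.prod_univ_succ, Fin.prod_univ_succ, Fin.prod_univ_succ, Fin.prod_univ_succ]
  have e0 : ((0 : Fin (e + 2)) : ℕ) = 0 := rfl
  have e1 : (((0 : Fin (e + 1)).succ : Fin (e + 2)) : ℕ) = 1 := rfl
  have e2 : ∀ x : Fin e, ((x.succ.succ : Fin (e + 2)) : ℕ) = (x : ℕ) + 2 := fun x => rfl
  have e3 : ∀ x : Fin e, ¬ ((x : ℕ) + 2 = 0) := fun x => by omega
  have e4 : ∀ x : Fin e, ¬ ((x : ℕ) + 2 = 1) := fun x => by omega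
  simp only [e0, e1, e2, e3, e4, if_true, if_false, one_ne_zero, Pi.smul_apply, smul_eq_mul]
  ring

theorem ip_smul (d K : ℕ) (s : ℝ) (u h : Ix d K → ℝ) : ip u (s • h) = s * ip u h := by
  unfold ip
  simp only [Finset.mul_sum, Pi.smul_apply, smul_eq_mul]
  refine Finset.sum_congr rfl (fun a _ => ?_)
  ring

theorem Q5_smul (d K : ℕ) (hd : 2 ≤ d) (s : ℝ) (h : Ix d K → ℝ) : Qd d K (s • h) = s ^ 2 * Qd d K h := by
  unfold Qd
  rw [TJ_smul d K hd, ip_smul, nsq_smul]
  ring

theorem fv_u0 (hEXP : ST_EXPD) (d : ℕ) (hd : 2 ≤ d) (K : ℕ) : fvd d K (u0 d K) = 1 := by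
  obtain ⟨C, hC⟩ := hEXP d hd K
  have h0 : nsq (0 : Ix d K → ℝ) = 0 := by simp [nsq]
  have h1 := hC 0 (by rw [h0]; norm_num)
  have h2 : Qd d K (0 : Ix d K → ℝ) = 0 := by
    have := Q5_smul d K hd 0 (0 : Ix d K → ℝ)
    rw [zero_smul] at this
    rw [this]
    ring
  rw [h0, h2] at h1
  simp at h1
  have h3 : (fun a => u0 d K a) = u0 d K := rfl
  rw [h3] at h1
  linarith

/-- the limit of the powers of the vertex function -/
theorem fv_lim (hEXP : ST_EXPD) (d : ℕ) (hd : 2 ≤ d) (K : ℕ) (s : Ix d K → ℝ) :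
    Tendsto (fun k : ℕ => fvd d K (u0 d K + (Real.sqrt k)⁻¹ • s) ^ k) atTop
      (𝓝 (Real.exp (-(Qd d K s) / 2))) := by
  obtain ⟨C0, hC⟩ := hEXP d hd K
  have hnn := nsq_nonneg s
  have hg : Tendsto (fun k : ℕ => (k : ℝ) * (fvd d K (u0 d K + (Real.sqrt k)⁻¹ • s) - 1)) atTop
      (𝓝 (-(Qd d K s) / 2)) := by
    rw [tendsto_iff_norm_sub_tendsto_zero]
    have hlim : Tendsto (fun k : ℕ => (max C0 0 * Real.sqrt (nsq s) ^ 3) * (Real.sqrt k)⁻¹) atTop
        (𝓝 ((max C0 0 * Real.sqrt (nsq s) ^ 3) * 0)) := by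
      apply Tendsto.const_mul
      apply Tendsto.inv_tendsto_atTop
      exact Real.tendsto_sqrt_atTop.comp tendsto_natCast_atTop_atTop
    rw [mul_zero] at hlim
    refine squeeze_zero' (Eventually.of_forall (fun _ => norm_nonneg _)) ?_ hlim
    have hev : ∀ᶠ k : ℕ in atTop, nsq s ≤ k ∧ 1 ≤ k := by
      have h1 : ∀ᶠ k : ℕ in atTop, nsq s ≤ (k : ℝ) :=
        tendsto_natCast_atTop_atTop.eventually_ge_atTop _
      exact h1.and (eventually_ge_atTop 1)
    filter_upwards [hev] with k hk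
    obtain ⟨hk1, hk2⟩ := hk
    have hkpos : (0 : ℝ) < k := by exact_mod_cast hk2
    have hsq : Real.sqrt k ^ 2 = k := Real.sq_sqrt hkpos.le
    have hsp : 0 < Real.sqrt k := Real.sqrt_pos.mpr hkpos
    have hn : nsq ((Real.sqrt k)⁻¹ • s) = nsq s / k := by
      rw [nsq_smul, inv_pow, hsq]
      field_simp
    have hn1 : nsq ((Real.sqrt k)⁻¹ • s) ≤ 1 := by
      rw [hn, div_le_one hkpos]
      exact hk1
    have h1 := hC _ hn1
    have h2 : Qd d K ((Real.sqrt k)⁻¹ • s) = Qd d K s / (k : ℝ) := by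
      rw [Q5_smul d K hd, inv_pow, hsq]
      ring
    rw [h2, hn] at h1
    have h3 : Real.sqrt (nsq s / k) ^ 3 = Real.sqrt (nsq s) ^ 3 / Real.sqrt k ^ 3 := by
      rw [Real.sqrt_div hnn, div_pow]
    rw [h3] at h1
    have hfe : fvd d K (fun a => u0 d K a + ((Real.sqrt k)⁻¹ • s) a) = fvd d K (u0 d K + (Real.sqrt k)⁻¹ • s) :=
      rfl
    rw [hfe] at h1
    have h4 : (k : ℝ) * (fvd d K (u0 d K + (Real.sqrt k)⁻¹ • s) - 1) - -(Qd d K s) / 2 =
        (k : ℝ) * (fvd d K (u0 d K + (Real.sqrt k)⁻¹ • s) - (1 - Qd d K s / (k : ℝ) / 2)) := by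
      field_simp
      ring
    rw [h4, norm_mul, Real.norm_natCast, Real.norm_eq_abs]
    calc (k : ℝ) * |fvd d K (u0 d K + (Real.sqrt k)⁻¹ • s) - (1 - Qd d K s / (k : ℝ) / 2)| ≤
          (k : ℝ) * (max C0 0 * (Real.sqrt (nsq s) ^ 3 / Real.sqrt k ^ 3)) := by
          gcongr
          refine h1.trans ?_
          gcongr
          exact le_max_left _ _
      _ = (max C0 0 * Real.sqrt (nsq s) ^ 3) * (Real.sqrt k)⁻¹ := by
          rw [← hsq]
          field_simp
          rw [Real.sqrt_sq hsp.le]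
          ring
  have h5 := Real.tendsto_one_add_pow_exp_of_tendsto hg
  simpa using h5

/-- the bound near the peak -/
theorem near (hLOW2 : ST_LOW2) (hEXP : ST_EXPD) (hHES : ST_HES) (hT : ST_TIGHT) (d : ℕ) (hd : 3 ≤ d)
    (K : ℕ) :
    ∃ r A : ℝ, 0 < r ∧ 0 ≤ A ∧ ∀ N : ℕ, 1 ≤ N → ∀ h : Ix d K → ℝ, nsq h ≤ r →
      FF d K N (u0 d K + h) ≤ A * (psiN d N ^ K)⁻¹ * Real.exp (-((N : ℝ) / 2 * nsq h)) := by
  have hd2 : 2 ≤ d := by omega
  obtain ⟨c, r1, C2, hc, hr1, hlow⟩ := hLOW2 d (by omega) K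
  obtain ⟨C1, hC1⟩ := hEXP d hd2 K
  -- positivity of fv near the peak
  have hpos : ∀ᶠ h : Ix d K → ℝ in 𝓝 0, 0 < fvd d K (u0 d K + h) := by
    have h1 : Tendsto (fun h : Ix d K → ℝ => fvd d K (u0 d K + h)) (𝓝 0) (𝓝 1) := by
      have h2 : Continuous (fun h : Ix d K → ℝ => fvd d K (u0 d K + h)) :=
        (cont_fv d K).comp (continuous_const.add continuous_id)
      have h3 := h2.tendsto 0
      rw [add_zero, fv_u0 hEXP d hd2] at h3
      exact h3
    exact h1.eventually (lt_mem_nhds one_pos)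
  obtain ⟨δ, hδ, hball⟩ := Metric.eventually_nhds_iff.mp hpos
  set D : ℝ := 2 * max C1 0 + max C2 0 with hD
  have hD0 : 0 ≤ D := by positivity
  obtain ⟨r, hr, hr_1, hr_2, hr_3, hr_4⟩ : ∃ r : ℝ, 0 < r ∧ r ≤ 1 ∧ r ≤ r1 ∧ r ≤ (δ / 2) ^ 2 ∧
      D * Real.sqrt r ≤ 1 / 2 := by
    refine ⟨min (min 1 r1) (min ((δ / 2) ^ 2) ((1 / (2 * (D + 1))) ^ 2)), by positivity, ?_, ?_, ?_, ?_⟩
    · exact (min_le_left _ _).trans (min_le_left _ _)
    · exact (min_le_left _ _).trans (min_le_right _ _)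
    · exact (min_le_right _ _).trans (min_le_left _ _)
    · have h1 : Real.sqrt (min (min 1 r1) (min ((δ / 2) ^ 2) ((1 / (2 * (D + 1))) ^ 2))) ≤
          1 / (2 * (D + 1)) := by
        rw [← Real.sqrt_sq (show 0 ≤ 1 / (2 * (D + 1)) by positivity)]
        apply Real.sqrt_le_sqrt
        rw [Real.sqrt_sq (show 0 ≤ 1 / (2 * (D + 1)) by positivity)]
        exact (min_le_right _ _).trans (min_le_right _ _)
      calc D * Real.sqrt (min (min 1 r1) (min ((δ / 2) ^ 2) ((1 / (2 * (D + 1))) ^ 2))) ≤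
          D * (1 / (2 * (D + 1))) := by gcongr
        _ ≤ 1 / 2 := by
          rw [mul_one_div, div_le_div_iff₀ (by positivity) two_pos]
          linarith
  refine ⟨r, 1 / c, hr, by positivity, ?_⟩
  intro N hN h hh
  have hNpos : (0 : ℝ) < N := by exact_mod_cast hN
  have hn := nsq_nonneg h
  have hnr : Real.sqrt (nsq h) ≤ Real.sqrt r := Real.sqrt_le_sqrt hh
  have hsq : Real.sqrt (nsq h) ^ 2 = nsq h := Real.sq_sqrt hn
  have hs0 : 0 ≤ Real.sqrt (nsq h) := Real.sqrt_nonneg _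
  have hf0 : 0 < fvd d K (u0 d K + h) := by
    apply hball
    rw [dist_zero_right]
    calc ‖h‖ ≤ Real.sqrt (nsq h) := norm_le_sqrt_nsq h
      _ ≤ Real.sqrt r := hnr
      _ ≤ Real.sqrt ((δ / 2) ^ 2) := Real.sqrt_le_sqrt hr_3
      _ = δ / 2 := Real.sqrt_sq (by positivity)
      _ < δ := by linarith
  have hexp := hC1 h (hh.trans hr_1)
  have hfe : fvd d K (fun a => u0 d K a + h a) = fvd d K (u0 d K + h) := rfl
  rw [hfe] at hexp
  set c3 : ℝ := Real.sqrt (nsq h) ^ 3 with hc3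
  have hc30 : 0 ≤ c3 := by positivity
  have hfle : fvd d K (u0 d K + h) ≤ Real.exp (-(Qd d K h / 2) + max C1 0 * c3) := by
    have h1 := (abs_le.mp hexp).2
    have h2 : C1 * c3 ≤ max C1 0 * c3 := by
      gcongr
      exact le_max_left _ _
    have h3 := Real.add_one_le_exp (-(Qd d K h / 2) + max C1 0 * c3)
    linarith
  have hfpow : fvd d K (u0 d K + h) ^ (2 * N) ≤
      Real.exp (-((N : ℝ) * Qd d K h) + 2 * N * (max C1 0) * c3) := by
    calc fvd d K (u0 d K + h) ^ (2 * N) ≤ Real.exp (-(Qd d K h / 2) + max C1 0 * c3) ^ (2 * N) := by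
          gcongr
      _ = Real.exp (-((N : ℝ) * Qd d K h) + 2 * N * (max C1 0) * c3) := by
          rw [← Real.exp_nat_mul]
          congr 1
          push_cast
          ring
  have hl := hlow N hN h (hh.trans hr_2)
  have hle : Psid d K N (fun a => u0 d K a + h a) = Psid d K N (u0 d K + h) := rfl
  rw [hle, ← hc3] at hl
  obtain ⟨-, hes1', hes2, hes3⟩ := hHES d hd K h
  have hd3 : (3 : ℝ) ≤ d := by exact_mod_cast hd
  have hes1 : 3 / 2 * (nsq h - tqd d K h) ≤ Qd d K h := by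
    refine le_trans ?_ hes1'
    have e1 : (3 : ℝ) / 2 ≤ (d : ℝ) * (d - 2) / (d - 1) := by
      rw [div_le_div_iff₀ two_pos (by linarith)]
      nlinarith
    have e2 : 0 ≤ nsq h - tqd d K h := by linarith
    gcongr
  have hpsi : 0 < psiN d N := (hT d (by omega)).1 N |>.1
  have hu : (fun a => (u0 d K + h) a - u0 d K a) = h := by
    funext a
    simp
  unfold FF
  rw [hu]
  have hLp : 0 < c * psiN d N ^ K *
    Real.exp (-(N : ℝ) * (nsq h - tqd d K h) - C2 * N * c3) := by positivity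
  have hf1 : 0 ≤ fvd d K (u0 d K + h) ^ (2 * N) := by positivity
  calc fvd d K (u0 d K + h) ^ (2 * N) * Real.exp (-(N : ℝ) * nsq h) / Psid d K N (u0 d K + h) ≤
      Real.exp (-((N : ℝ) * Qd d K h) + 2 * N * (max C1 0) * c3) * Real.exp (-(N : ℝ) * nsq h) /
        (c * psiN d N ^ K *
          Real.exp (-(N : ℝ) * (nsq h - tqd d K h) - C2 * N * c3)) := by
        gcongr
    _ = 1 / c * (psiN d N ^ K)⁻¹ *
        (Real.exp (-((N : ℝ) * Qd d K h) + 2 * N * (max C1 0) * c3) * Real.exp (-(N : ℝ) * nsq h) *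
          (Real.exp (-(N : ℝ) * (nsq h - tqd d K h) - C2 * N * c3))⁻¹) := by
        field_simp
    _ ≤ 1 / c * (psiN d N ^ K)⁻¹ * Real.exp (-((N : ℝ) / 2 * nsq h)) := by
        gcongr
        rw [← Real.exp_neg, ← Real.exp_add, ← Real.exp_add]
        apply Real.exp_le_exp.mpr
        have h5 : D * c3 ≤ 1 / 2 * nsq h := by
          calc D * c3 = D * Real.sqrt (nsq h) * nsq h := by rw [hc3, pow_succ', hsq]; ring
            _ ≤ D * Real.sqrt r * nsq h := by gcongr
            _ ≤ 1 / 2 * nsq h := by gcongr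
        have h6 : C2 * c3 ≤ max C2 0 * c3 := by
          gcongr
          exact le_max_left _ _
        have h7 : -(Qd d K h) + 2 * (max C1 0) * c3 - nsq h + (nsq h - tqd d K h) + C2 * c3 ≤
            -(1 / 2 * nsq h) := by
          have h8 : D * c3 = 2 * (max C1 0) * c3 + max C2 0 * c3 := by rw [hD]; ring
          linarith
        calc -((N : ℝ) * Qd d K h) + 2 * N * (max C1 0) * c3 + -(N : ℝ) * nsq h +
            -(-(N : ℝ) * (nsq h - tqd d K h) - C2 * N * c3) =
            N * (-(Qd d K h) + 2 * (max C1 0) * c3 - nsq h + (nsq h - tqd d K h) + C2 * c3) := by ring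
          _ ≤ N * -(1 / 2 * nsq h) := by gcongr
          _ = -((N : ℝ) / 2 * nsq h) := by ring

/-- change of variables -/
theorem cov_int (d K N : ℕ) (hN : 1 ≤ N) (S : Set (Ix d K → ℝ)) (hS : MeasurableSet S)
    (F : (Ix d K → ℝ) → ℝ) (u : Ix d K → ℝ) :
    ∫ t, S.indicator F (u + (Real.sqrt (2 * (N : ℝ)))⁻¹ • t) =
      (2 * (N : ℝ)) ^ ((d : ℝ) ^ (2 * K) / 2) * ∫ y in S, F y := by
  have hNpos : (0 : ℝ) < 2 * (N : ℝ) := by
    have : (1 : ℝ) ≤ N := by exact_mod_cast hN
    linarith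
  have h1 := Measure.integral_comp_inv_smul (volume : Measure (Ix d K → ℝ))
    (fun y => S.indicator F (u + y)) (Real.sqrt (2 * (N : ℝ)))
  rw [h1, integral_add_left_eq_self (fun y => S.indicator F y) u,
    integral_indicator hS, Module.finrank_fintype_fun_eq_card]
  have h2 : |Real.sqrt (2 * (N : ℝ)) ^ Fintype.card (Ix d K)| = (2 * (N : ℝ)) ^ ((d : ℝ) ^ (2 * K) / 2) := by
    rw [abs_of_nonneg (by positivity), Real.sqrt_eq_rpow, ← Real.rpow_natCast,
      ← Real.rpow_mul hNpos.le, card_Ix]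
    congr 1
    ring
  rw [h2, smul_eq_mul]

/-- Module LAPF. -/
theorem st_LAPF (hOUT : ST_OUT) (hLIM : ST_LIM) (hLOW2 : ST_LOW2)
    (hEXP : ST_EXPD) (hHES : ST_HES) (hPSC : ST_PSC) (hT : ST_TIGHT) : ST_LAPF := by
  intro d hd K
  have hd2 : 2 ≤ d := by omega
  have hd1 : 1 ≤ d := by omega
  obtain ⟨r, A, hr, hA, hnear⟩ := near hLOW2 hEXP hHES hT d hd K
  obtain ⟨c, C, hc, hout⟩ := hOUT d hd K r hr
  have hck : (0 : ℝ) < 4 ^ K * (K.factorial : ℝ) := by positivity
  have hpsi : ∀ N : ℕ, 0 < psiN d N := fun N => ((hT d hd1).1 N).1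
  have hpsi1 : ∀ N : ℕ, psiN d N ≤ 1 := fun N => ((hT d hd1).1 N).2
  -- near part
  set S : Set (Ix d K → ℝ) := {y | nsq (fun a => y a - u0 d K a) < r} with hSdef
  have hScont : Continuous (fun y : Ix d K → ℝ => nsq (fun a => y a - u0 d K a)) :=
    (continuous_nsq (ι := Ix d K)).comp (by fun_prop)
  have hSo : IsOpen S := isOpen_lt hScont continuous_const
  have hS : MeasurableSet S := hSo.measurableSet
  have hSc : Sᶜ = {y : Ix d K → ℝ | r ≤ nsq (fun a => y a - u0 d K a)} := by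
    ext y
    simp [hSdef]
  have hmain : Tendsto (fun N : ℕ => ∫ t, psiN d N ^ K *
      S.indicator (FF d K N) (u0 d K + (Real.sqrt (2 * (N : ℝ)))⁻¹ • t)) atTop
      (𝓝 (∫ t, Real.exp (-(Qd d K t) / 2) *
        ((4 ^ K * (K.factorial : ℝ)) * Real.exp (tqd d K t / 2))⁻¹)) := by
    apply tendsto_integral_filter_of_dominated_convergence
      (fun t : Ix d K → ℝ => A * Real.exp (-(1 / 4 * nsq t)))
    · filter_upwards with N
      have h1 : StronglyMeasurable (S.indicator (FF d K N)) :=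
        (cont_FF hPSC d K N).stronglyMeasurable.indicator hS
      have h2 : Measurable (fun t : Ix d K → ℝ => u0 d K + (Real.sqrt (2 * (N : ℝ)))⁻¹ • t) := by
        apply Continuous.measurable
        fun_prop
      exact (h1.comp_measurable h2).aestronglyMeasurable.const_mul _
    · filter_upwards [eventually_ge_atTop 1] with N hN
      filter_upwards with t
      have hNpos : (0 : ℝ) < (N : ℝ) := by exact_mod_cast hN
      have h2N : (0 : ℝ) < 2 * (N : ℝ) := by linarith
      have hpN := hpsi N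
      rw [norm_mul, Real.norm_eq_abs, Real.norm_eq_abs, abs_of_pos (by positivity)]
      by_cases ht : u0 d K + (Real.sqrt (2 * (N : ℝ)))⁻¹ • t ∈ S
      · rw [Set.indicator_of_mem ht, abs_of_nonneg (FF_nonneg hPSC d K N _)]
        have h3 : nsq ((Real.sqrt (2 * (N : ℝ)))⁻¹ • t) ≤ r := by
          have h4 : nsq (fun a => (u0 d K + (Real.sqrt (2 * (N : ℝ)))⁻¹ • t) a - u0 d K a) < r := ht
          have h5 : (fun a => (u0 d K + (Real.sqrt (2 * (N : ℝ)))⁻¹ • t) a - u0 d K a) =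
              (Real.sqrt (2 * (N : ℝ)))⁻¹ • t := by
            funext a
            simp
          rw [h5] at h4
          exact h4.le
        have h6 := hnear N hN _ h3
        have h7 : nsq ((Real.sqrt (2 * (N : ℝ)))⁻¹ • t) = nsq t / (2 * N) := by
          rw [nsq_smul, inv_pow, Real.sq_sqrt h2N.le]
          field_simp
        rw [h7] at h6
        calc psiN d N ^ K *
              FF d K N (u0 d K + (Real.sqrt (2 * (N : ℝ)))⁻¹ • t) ≤
              psiN d N ^ K * (A * (psiN d N ^ K)⁻¹ *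
                Real.exp (-((N : ℝ) / 2 * (nsq t / (2 * N))))) := by
              gcongr
          _ = A * Real.exp (-(1 / 4 * nsq t)) := by
              have h8 : (N : ℝ) / 2 * (nsq t / (2 * N)) = 1 / 4 * nsq t := by
                field_simp
                ring
              rw [h8]
              have h9 : psiN d N ^ K ≠ 0 := by positivity
              field_simp
      · rw [Set.indicator_of_notMem ht, abs_zero, mul_zero]
        positivity
    · have h1 := ((PG.const (ι := Ix d K) 1).integrable (1 / 4) (by norm_num)).norm.const_mul A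
      refine h1.congr ?_
      filter_upwards with t
      rw [one_mul, Complex.norm_real, Real.norm_eq_abs, abs_of_pos (Real.exp_pos _)]
    · filter_upwards with t
      have hf := fv_lim hEXP d hd2 K t
      have h2 : Tendsto (fun N : ℕ => 2 * N) atTop atTop :=
        tendsto_id.const_mul_atTop' (by norm_num)
      have hf2 := hf.comp h2
      have hl := (hLIM d hd2 K t).inv₀ (by positivity)
      have hprod := hf2.mul hl
      refine hprod.congr' ?_
      -- eventually in the open set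
      have hin : ∀ᶠ N : ℕ in atTop, u0 d K + (Real.sqrt (2 * (N : ℝ)))⁻¹ • t ∈ S := by
        have hpt : Tendsto (fun N : ℕ => u0 d K + (Real.sqrt (2 * (N : ℝ)))⁻¹ • t) atTop
            (𝓝 (u0 d K + (0 : ℝ) • t)) := by
          apply Tendsto.const_add
          apply Tendsto.smul_const
          apply Tendsto.inv_tendsto_atTop
          apply Real.tendsto_sqrt_atTop.comp
          exact tendsto_natCast_atTop_atTop.const_mul_atTop two_pos
        rw [zero_smul, add_zero] at hpt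
        have hu : u0 d K ∈ S := by
          change nsq (fun a => u0 d K a - u0 d K a) < r
          simp only [sub_self]
          have : nsq (fun _ : Ix d K => (0 : ℝ)) = 0 := by simp [nsq]
          rw [this]
          exact hr
        exact hpt.eventually (hSo.mem_nhds hu)
      filter_upwards [hin, eventually_ge_atTop 1] with N hN1 hN
      have hNpos : (0 : ℝ) < (N : ℝ) := by exact_mod_cast hN
      have h2N : (0 : ℝ) < 2 * (N : ℝ) := by linarith
      have hpN := hpsi N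
      rw [Set.indicator_of_mem hN1]
      simp only [Function.comp_apply]
      have e1 : ((2 * N : ℕ) : ℝ) = 2 * (N : ℝ) := by push_cast; ring
      rw [e1]
      have e2 : (fun a => u0 d K a + t a / Real.sqrt (2 * (N : ℝ))) =
          u0 d K + (Real.sqrt (2 * (N : ℝ)))⁻¹ • t := by
        funext a
        simp only [Pi.add_apply, Pi.smul_apply, smul_eq_mul]
        ring
      rw [e2]
      unfold FF
      have e3 : (fun a => (u0 d K + (Real.sqrt (2 * (N : ℝ)))⁻¹ • t) a - u0 d K a) =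
          (Real.sqrt (2 * (N : ℝ)))⁻¹ • t := by
        funext a
        simp
      have e4 : nsq ((Real.sqrt (2 * (N : ℝ)))⁻¹ • t) = nsq t / (2 * N) := by
        rw [nsq_smul, inv_pow, Real.sq_sqrt h2N.le]
        field_simp
      rw [e3, e4]
      have e5 : -(N : ℝ) * (nsq t / (2 * N)) = -(nsq t / 2) := by
        field_simp
      rw [e5, Real.exp_neg]
      have hps := (hPSC d K N).2.1 (u0 d K + (Real.sqrt (2 * (N : ℝ)))⁻¹ • t)
      have h9 : psiN d N ^ K ≠ 0 := by positivity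
      field_simp
  -- far part
  have hfar : Tendsto (fun N : ℕ => (2 * (N : ℝ)) ^ ((d : ℝ) ^ (2 * K) / 2) * psiN d N ^ K *
      ∫ y in Sᶜ, FF d K N y) atTop (𝓝 0) := by
    have h1 : Tendsto (fun N : ℕ => (C * ((2 * (N : ℝ)) ^ ((d : ℝ) ^ (2 * K) / 2) *
        Real.exp (-(c / 2) * (2 * (N : ℝ)))))) atTop (𝓝 (C * 0)) := by
      apply Tendsto.const_mul
      have h2 := tendsto_rpow_mul_exp_neg_mul_atTop_nhds_zero ((d : ℝ) ^ (2 * K) / 2) (c / 2)
        (by positivity)
      exact h2.comp (tendsto_natCast_atTop_atTop.const_mul_atTop two_pos)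
    rw [mul_zero] at h1
    have hI0 : ∀ N : ℕ, 0 ≤ ∫ y in Sᶜ, FF d K N y := fun N =>
      integral_nonneg (fun y => FF_nonneg hPSC d K N y)
    refine squeeze_zero' ?_ ?_ h1
    · filter_upwards with N
      have hpN := hpsi N
      exact mul_nonneg (by positivity) (hI0 N)
    · filter_upwards [eventually_ge_atTop 1] with N hN
      have h3 := (hout N hN).2
      have h4 : ∫ y in Sᶜ, FF d K N y ≤ C * Real.exp (-c * N) := by
        rw [hSc]
        exact h3
      have h5 : psiN d N ^ K ≤ 1 := pow_le_one₀ (hpsi N).le (hpsi1 N)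
      calc (2 * (N : ℝ)) ^ ((d : ℝ) ^ (2 * K) / 2) * psiN d N ^ K * ∫ y in Sᶜ, FF d K N y ≤
            (2 * (N : ℝ)) ^ ((d : ℝ) ^ (2 * K) / 2) * 1 * ∫ y in Sᶜ, FF d K N y := by
            apply mul_le_mul_of_nonneg_right _ (hI0 N)
            gcongr
        _ ≤ (2 * (N : ℝ)) ^ ((d : ℝ) ^ (2 * K) / 2) * 1 * (C * Real.exp (-c * N)) := by
            gcongr
        _ = C * ((2 * (N : ℝ)) ^ ((d : ℝ) ^ (2 * K) / 2) *
            Real.exp (-(c / 2) * (2 * (N : ℝ)))) := by
            have : -c * (N : ℝ) = -(c / 2) * (2 * (N : ℝ)) := by ring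
            rw [this]
            ring
  have hsum := hmain.add hfar
  rw [add_zero] at hsum
  have hval : ((4 ^ K * (K.factorial : ℝ)))⁻¹ * ∫ t, Real.exp (-(Qd d K t + tqd d K t) / 2) =
      ∫ t, Real.exp (-(Qd d K t) / 2) *
        ((4 ^ K * (K.factorial : ℝ)) * Real.exp (tqd d K t / 2))⁻¹ := by
    rw [← integral_const_mul]
    congr 1
    funext t
    rw [mul_inv (4 ^ K * (K.factorial : ℝ)) (Real.exp _), ← Real.exp_neg]
    have : -(Qd d K t + tqd d K t) / 2 = -(Qd d K t) / 2 + -(tqd d K t / 2) := by ring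
    rw [this, Real.exp_add]
    ring
  rw [hval]
  refine hsum.congr' ?_
  filter_upwards [eventually_ge_atTop 1] with N hN
  have hint : Integrable (FF d K N) := (hout N hN).1
  change _ = (2 * (N : ℝ)) ^ ((d : ℝ) ^ (2 * K) / 2) * psiN d N ^ K * ∫ y, FF d K N y
  rw [integral_const_mul, cov_int d K N hN S hS (FF d K N) (u0 d K), ← integral_add_compl hS hint,
    mul_add]
  congr 1
  ring

end Pool.Agent.Helper32.T6.Lap
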