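import Pool.Agent.Helper32.T6.PT
import Pool.Agent.Helper46.T6.Stmts

set_option autoImplicit false

/-! Modules LOC and EXPB of the project T6. -/

open Finset

namespace Pool.Agent.Helper32.T6

open Pool.Agent.Helper15.T4 (IsPM PM cov IsMat nsq po)
open Pool.Agent.Helper15.T6 Pool.Agent.Helper46.T6

/-- Module EXPB. -/
theorem st_EXPB : ST_EXPB := by
  intro d
  refine ⟨4, by norm_num, ?_⟩
  intro β hβ h1
  obtain ⟨A, hA, hA'⟩ := cayley β hβ
  have h0 := nsqm_nonneg β
  refine ⟨A, hA, by nlinarith [sq_nonneg (nsqm β)], ?_⟩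
  have h2 : A - 1 = (A - 1 - β) + β := by abel
  calc nsqm (A - 1) = nsqm ((A - 1 - β) + β) := by rw [← h2]
    _ ≤ 2 * nsqm (A - 1 - β) + 2 * nsqm β := nsqm_add_le _ _
    _ ≤ 2 * nsqm β ^ 2 + 2 * nsqm β := by linarith
    _ ≤ 4 * nsqm β := by nlinarith

theorem nsq_add_le {ι : Type} [Fintype ι] (x y : ι → ℝ) :
    nsq (fun a => x a + y a) ≤ 2 * nsq x + 2 * nsq y := by
  unfold nsq
  rw [Finset.mul_sum, Finset.mul_sum, ← Finset.sum_add_distrib]
  refine Finset.sum_le_sum (fun a _ => ?_)
  nlinarith [sq_nonneg (x a - y a)]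

/-- Module LOC. -/
theorem st_LOC : ST_LOC := by
  intro d hd K
  obtain ⟨C1, hC1, h1⟩ := pt_exp d K
  obtain ⟨C2, hC2, h2⟩ := Lmd_le d K
  refine ⟨1 + 2 * C1 + C2 + 2 * C1 * (4 * d * K) + 2 * C2, by positivity, ?_⟩
  intro O hO
  have hdd := dd_nonneg O
  have hb : ∀ p, nsqm (O p - 1) ≤ 4 * d := by
    intro p
    have e1 : nsqm (O p) = d := by
      rw [nsqm_trace]
      have e2 : (O p).transpose * O p = 1 := mul_eq_one_comm.mp (hO p)
      rw [e2, Matrix.trace_one, Fintype.card_fin]
    have e3 : nsqm (-1 : Md d) = d := by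
      rw [nsqm_neg, nsqm_trace, Matrix.transpose_one, one_mul, Matrix.trace_one, Fintype.card_fin]
    have e4 := nsqm_add_le (O p) (-1)
    rw [e1, e3, ← sub_eq_add_neg] at e4
    linarith
  have hdb : dd O ≤ 4 * d * K := by
    unfold dd
    calc ∑ p, nsqm (O p - 1) ≤ ∑ _p : Fin K, (4 * (d : ℝ)) := Finset.sum_le_sum (fun p _ => hb p)
      _ = 4 * d * K := by simp [mul_comm]
  have hdd2 : dd O ^ 2 ≤ 4 * d * K * dd O := by
    rw [pow_two]
    gcongr
  have h3 := h1 O hO
  change nsq (fun a => pt (Equiv.refl _) O a - u0 d K a -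
      Lmd (fun p => (1 / 2 : ℝ) • (O p - (O p).transpose)) a) ≤ _ * dd O ^ 2 ∧
    nsq (fun a => pt (Equiv.refl _) O a - u0 d K a) ≤ _ * dd O
  constructor
  · -- the symmetric part is quadratic
    set γ : Fin K → Md d := fun p => -((1 / 2 : ℝ) • ((O p - 1).transpose * (O p - 1))) with hγ
    have e1 : ∀ p, O p - 1 = (1 / 2 : ℝ) • (O p - (O p).transpose) + γ p := by
      intro p
      have e2 : (O p).transpose * O p = 1 := mul_eq_one_comm.mp (hO p)
      rw [hγ]
      simp only
      rw [Matrix.transpose_sub, Matrix.transpose_one, Matrix.sub_mul, Matrix.mul_sub, e2]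
      ext i j
      simp only [Matrix.sub_apply, Matrix.add_apply, Matrix.smul_apply, Matrix.neg_apply,
        Matrix.mul_sub, Matrix.one_mul, Matrix.mul_one, smul_eq_mul]
      ring
    have e3 : Lmd (fun p => O p - 1) =
        fun a => Lmd (fun p => (1 / 2 : ℝ) • (O p - (O p).transpose)) a + Lmd γ a := by
      have : (fun p => O p - 1) =
          (fun p => (1 / 2 : ℝ) • (O p - (O p).transpose) + γ p) := funext e1
      rw [this]
      exact Lmd_add _ _
    have e4 : (fun a => pt (Equiv.refl _) O a - u0 d K a -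
        Lmd (fun p => (1 / 2 : ℝ) • (O p - (O p).transpose)) a) =
        fun a => (pt (Equiv.refl _) O a - u0 d K a - Lmd (fun p => O p - 1) a) + Lmd γ a := by
      funext a
      rw [e3]
      ring
    rw [e4]
    have e5 : ∑ p, nsqm (γ p) ≤ 1 / 4 * dd O ^ 2 := by
      calc ∑ p, nsqm (γ p) ≤ ∑ p, 1 / 4 * nsqm (O p - 1) ^ 2 := by
            refine Finset.sum_le_sum (fun p _ => ?_)
            rw [hγ]
            simp only
            rw [nsqm_neg, nsqm_smul]
            have := nsqm_mul_le (O p - 1).transpose (O p - 1)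
            rw [nsqm_transpose] at this
            nlinarith
        _ = 1 / 4 * ∑ p, nsqm (O p - 1) ^ 2 := by rw [Finset.mul_sum]
        _ ≤ 1 / 4 * dd O ^ 2 := by
            have : ∑ p, nsqm (O p - 1) ^ 2 ≤ dd O ^ 2 := by
              calc ∑ p, nsqm (O p - 1) ^ 2 ≤ ∑ p, nsqm (O p - 1) * dd O := by
                    refine Finset.sum_le_sum (fun p _ => ?_)
                    rw [pow_two]
                    apply mul_le_mul_of_nonneg_left _ (nsqm_nonneg _)
                    exact Finset.single_le_sum (f := fun p => nsqm (O p - 1))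
                      (fun p _ => nsqm_nonneg _) (Finset.mem_univ p)
                _ = dd O ^ 2 := by rw [← Finset.sum_mul, pow_two]; rfl
            linarith
    calc nsq (fun a => (pt (Equiv.refl _) O a - u0 d K a - Lmd (fun p => O p - 1) a) + Lmd γ a) ≤
          2 * nsq (fun a => pt (Equiv.refl _) O a - u0 d K a - Lmd (fun p => O p - 1) a) +
            2 * nsq (Lmd γ) := nsq_add_le _ _
      _ ≤ 2 * (C1 * dd O ^ 2) + 2 * (C2 * (1 / 4 * dd O ^ 2)) := by
          have := h2 γ
          have e6 : C2 * ∑ p, nsqm (γ p) ≤ C2 * (1 / 4 * dd O ^ 2) := by gcongr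
          linarith
      _ ≤ (1 + 2 * C1 + C2 + 2 * C1 * (4 * d * K) + 2 * C2) * dd O ^ 2 := by
          have e7 : 0 ≤ (1 + C2 / 2 + 2 * C1 * (4 * d * K) + 2 * C2) * dd O ^ 2 := by positivity
          nlinarith
  · have e1 : (fun a => pt (Equiv.refl _) O a - u0 d K a) =
        fun a => (pt (Equiv.refl _) O a - u0 d K a - Lmd (fun p => O p - 1) a) +
          Lmd (fun p => O p - 1) a := by
      funext a
      ring
    rw [e1]
    calc nsq (fun a => (pt (Equiv.refl _) O a - u0 d K a - Lmd (fun p => O p - 1) a) +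
          Lmd (fun p => O p - 1) a) ≤
          2 * nsq (fun a => pt (Equiv.refl _) O a - u0 d K a - Lmd (fun p => O p - 1) a) +
            2 * nsq (Lmd (fun p => O p - 1)) := nsq_add_le _ _
      _ ≤ 2 * (C1 * (4 * d * K * dd O)) + 2 * (C2 * dd O) := by
          have e2 := h2 (fun p => O p - 1)
          have e3 : C1 * dd O ^ 2 ≤ C1 * (4 * d * K * dd O) := by gcongr
          have e4 : C2 * ∑ p, nsqm (O p - 1) = C2 * dd O := rfl
          linarith
      _ ≤ (1 + 2 * C1 + C2 + 2 * C1 * (4 * d * K) + 2 * C2) * dd O := by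
          have e7 : 0 ≤ (1 + 2 * C1 + C2) * dd O := by positivity
          nlinarith

end Pool.Agent.Helper32.T6
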