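import Pool.Agent.Helper46.T6.Defs
import Pool.Agent.Helper88.T4.Peak

set_option autoImplicit false

/-! T6: expansions near the peak (products of matrices near the identity, Cayley rotations). -/

open Finset MeasureTheory Filter Topology

namespace Pool.Agent.Helper32.T6

open Pool.Agent.Helper15.T4 (IsPM PM cov IsMat nsq po)
open Pool.Agent.Helper15.T6 Pool.Agent.Helper46.T6
open Pool.Agent.Helper88.T4 (nsq_nonneg nsq_smul abs_le_sqrt_nsq)

/-! ### Products -/

theorem prod_exp {ι : Type} [DecidableEq ι] (s : Finset ι) : ∃ C : ℝ, 0 ≤ C ∧ ∀ a δ : ι → ℝ,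
    (∀ i ∈ s, |a i| ≤ 1) → (∀ i ∈ s, |δ i| ≤ 2) →
    |∏ i ∈ s, (a i + δ i) - ∏ i ∈ s, a i - ∑ i ∈ s, δ i * ∏ j ∈ s.erase i, a j| ≤
      C * ∑ i ∈ s, δ i ^ 2 := by
  induction s using Finset.induction_on with
  | empty => exact ⟨0, le_rfl, fun a δ _ _ => by simp⟩
  | insert i0 s hi ih =>
    obtain ⟨C, hC, h⟩ := ih
    refine ⟨3 * C + s.card + 1, by positivity, ?_⟩
    intro a δ ha hδ
    have ha0 : |a i0| ≤ 1 := ha i0 (Finset.mem_insert_self _ _)
    have hδ0 : |δ i0| ≤ 2 := hδ i0 (Finset.mem_insert_self _ _)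
    have ha' : ∀ i ∈ s, |a i| ≤ 1 := fun i hi => ha i (Finset.mem_insert_of_mem hi)
    have hδ' : ∀ i ∈ s, |δ i| ≤ 2 := fun i hi => hδ i (Finset.mem_insert_of_mem hi)
    have hE := h a δ ha' hδ'
    set P := ∏ i ∈ s, (a i + δ i) with hP
    set P0 := ∏ i ∈ s, a i with hP0
    set L := ∑ i ∈ s, δ i * ∏ j ∈ s.erase i, a j with hL
    set S2 := ∑ i ∈ s, δ i ^ 2 with hS2
    have hS20 : 0 ≤ S2 := Finset.sum_nonneg (fun _ _ => sq_nonneg _)
    have e1 : ∏ i ∈ insert i0 s, (a i + δ i) = (a i0 + δ i0) * P := Finset.prod_insert hi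
    have e2 : ∏ i ∈ insert i0 s, a i = a i0 * P0 := Finset.prod_insert hi
    have e3 : ∑ i ∈ insert i0 s, δ i * ∏ j ∈ (insert i0 s).erase i, a j = δ i0 * P0 + a i0 * L := by
      rw [Finset.sum_insert hi, Finset.erase_insert hi, hL, Finset.mul_sum]
      congr 1
      refine Finset.sum_congr rfl (fun i his => ?_)
      have hne : i0 ≠ i := fun h => hi (h ▸ his)
      rw [Finset.erase_insert_of_ne hne, Finset.prod_insert]
      · ring
      · intro hmem
        exact hi (Finset.mem_of_mem_erase hmem)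
    have e4 : ∑ i ∈ insert i0 s, δ i ^ 2 = δ i0 ^ 2 + S2 := Finset.sum_insert hi
    rw [e1, e2, e3, e4]
    have hLle : |L| ≤ ∑ i ∈ s, |δ i| := by
      refine (Finset.abs_sum_le_sum_abs _ _).trans (Finset.sum_le_sum (fun i his => ?_))
      rw [abs_mul, Finset.abs_prod]
      have : ∏ j ∈ s.erase i, |a j| ≤ 1 :=
        Finset.prod_le_one (fun _ _ => abs_nonneg _) (fun j hj => ha' j (Finset.mem_of_mem_erase hj))
      nlinarith [abs_nonneg (δ i)]
    have hdL : |δ i0| * |L| ≤ (s.card + 1) * (δ i0 ^ 2 + S2) := by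
      calc |δ i0| * |L| ≤ |δ i0| * ∑ i ∈ s, |δ i| := by gcongr
        _ = ∑ i ∈ s, |δ i0| * |δ i| := Finset.mul_sum _ _ _
        _ ≤ ∑ i ∈ s, (δ i0 ^ 2 + δ i ^ 2) := by
            refine Finset.sum_le_sum (fun i _ => ?_)
            nlinarith [sq_nonneg (|δ i0| - |δ i|), sq_abs (δ i0), sq_abs (δ i), abs_nonneg (δ i0),
              abs_nonneg (δ i)]
        _ = s.card * δ i0 ^ 2 + S2 := by
            rw [Finset.sum_add_distrib, Finset.sum_const, nsmul_eq_mul]
        _ ≤ (s.card + 1) * (δ i0 ^ 2 + S2) := by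
            have : (0 : ℝ) ≤ s.card := Nat.cast_nonneg _
            nlinarith [sq_nonneg (δ i0), mul_nonneg this hS20]
    have e5 : (a i0 + δ i0) * P - a i0 * P0 - (δ i0 * P0 + a i0 * L) =
        a i0 * (P - P0 - L) + (δ i0 * L + δ i0 * (P - P0 - L)) := by ring
    rw [e5]
    calc |a i0 * (P - P0 - L) + (δ i0 * L + δ i0 * (P - P0 - L))| ≤
        |a i0| * |P - P0 - L| + (|δ i0| * |L| + |δ i0| * |P - P0 - L|) := by
          refine (abs_add_le _ _).trans ?_
          rw [abs_mul]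
          gcongr
          refine (abs_add_le _ _).trans ?_
          rw [abs_mul, abs_mul]
      _ ≤ 1 * (C * S2) + ((s.card + 1) * (δ i0 ^ 2 + S2) + 2 * (C * S2)) := by
          gcongr
      _ ≤ (3 * C + s.card + 1) * (δ i0 ^ 2 + S2) := by
          nlinarith [mul_nonneg hC (sq_nonneg (δ i0))]

/-! ### Norms of matrices -/

section

variable {d K : ℕ}

theorem nsqm_nonneg (A : Md d) : 0 ≤ nsqm A :=
  Finset.sum_nonneg (fun _ _ => Finset.sum_nonneg (fun _ _ => sq_nonneg _))

theorem entry_sq_le (A : Md d) (i j : Fin d) : A i j ^ 2 ≤ nsqm A := by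
  unfold nsqm
  refine le_trans ?_ (Finset.single_le_sum (f := fun i => ∑ j, A i j ^ 2)
    (fun _ _ => Finset.sum_nonneg (fun _ _ => sq_nonneg _)) (Finset.mem_univ i))
  exact Finset.single_le_sum (f := fun j => A i j ^ 2) (fun _ _ => sq_nonneg _) (Finset.mem_univ j)

theorem nsqm_trace (A : Md d) : nsqm A = (A.transpose * A).trace := by
  unfold nsqm Matrix.trace
  simp only [Matrix.diag_apply, Matrix.mul_apply, Matrix.transpose_apply]
  rw [Finset.sum_comm]
  refine Finset.sum_congr rfl (fun _ _ => Finset.sum_congr rfl (fun _ _ => ?_))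
  ring

theorem nsqm_smul (c : ℝ) (A : Md d) : nsqm (c • A) = c ^ 2 * nsqm A := by
  unfold nsqm
  simp only [Matrix.smul_apply, smul_eq_mul, mul_pow, Finset.mul_sum]

theorem nsqm_neg (A : Md d) : nsqm (-A) = nsqm A := by
  unfold nsqm
  simp

theorem nsqm_transpose (A : Md d) : nsqm A.transpose = nsqm A := by
  unfold nsqm
  rw [Finset.sum_comm]
  rfl

theorem nsqm_mul_le (A B : Md d) : nsqm (A * B) ≤ nsqm A * nsqm B := by
  unfold nsqm
  have h1 : ∀ i j, (A * B) i j ^ 2 ≤ (∑ k, A i k ^ 2) * ∑ k, B k j ^ 2 := by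
    intro i j
    rw [Matrix.mul_apply]
    exact Finset.sum_mul_sq_le_sq_mul_sq _ _ _
  calc ∑ i, ∑ j, (A * B) i j ^ 2 ≤ ∑ i, ∑ j, (∑ k, A i k ^ 2) * ∑ k, B k j ^ 2 :=
        Finset.sum_le_sum (fun i _ => Finset.sum_le_sum (fun j _ => h1 i j))
    _ = (∑ i, ∑ k, A i k ^ 2) * ∑ j, ∑ k, B k j ^ 2 := by
        rw [Finset.sum_mul]
        refine Finset.sum_congr rfl (fun i _ => ?_)
        rw [Finset.mul_sum]
    _ = (∑ i, ∑ k, A i k ^ 2) * ∑ k, ∑ j, B k j ^ 2 := by rw [Finset.sum_comm (f := fun j k => B k j ^ 2)]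

theorem nsqm_add_le (A B : Md d) : nsqm (A + B) ≤ 2 * nsqm A + 2 * nsqm B := by
  unfold nsqm
  rw [Finset.mul_sum, Finset.mul_sum, ← Finset.sum_add_distrib]
  refine Finset.sum_le_sum (fun i _ => ?_)
  rw [Finset.mul_sum, Finset.mul_sum, ← Finset.sum_add_distrib]
  refine Finset.sum_le_sum (fun j _ => ?_)
  rw [Matrix.add_apply]
  nlinarith [sq_nonneg (A i j - B i j)]

/-- a rotation with a given antisymmetric first order part (Cayley transform) -/
theorem cayley (β : Md d) (hβ : β.transpose = -β) :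
    ∃ A : Md d, A * A.transpose = 1 ∧ nsqm (A - 1 - β) ≤ nsqm β ^ 2 := by
  set b : Md d := (1 / 2 : ℝ) • β with hb
  have hbt : b.transpose = -b := by
    rw [hb, Matrix.transpose_smul, hβ, smul_neg]
  -- the key identity
  have hiso : ∀ Y : Md d, nsqm Y ≤ nsqm ((1 - b) * Y) := by
    intro Y
    have h1 : (1 - b) * Y = Y - b * Y := by rw [sub_mul, one_mul]
    have h2 : nsqm (Y - b * Y) = nsqm Y + nsqm (b * Y) - 2 * (Y.transpose * (b * Y)).trace := by
      unfold nsqm Matrix.trace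
      simp only [Matrix.diag_apply, Matrix.mul_apply (M := Y.transpose), Matrix.transpose_apply,
        Matrix.sub_apply]
      rw [Finset.sum_comm (f := fun i j => Y j i * (b * Y) j i), Finset.mul_sum,
        ← Finset.sum_add_distrib, ← Finset.sum_sub_distrib]
      refine Finset.sum_congr rfl (fun i _ => ?_)
      rw [Finset.mul_sum, ← Finset.sum_add_distrib, ← Finset.sum_sub_distrib]
      refine Finset.sum_congr rfl (fun j _ => ?_)
      ring
    have h3 : (Y.transpose * (b * Y)).trace = 0 := by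
      have h4 : (Y.transpose * (b * Y)).trace = -(Y.transpose * (b * Y)).trace := by
        conv_lhs => rw [← Matrix.trace_transpose]
        rw [Matrix.transpose_mul, Matrix.transpose_mul, Matrix.transpose_transpose, hbt,
          Matrix.mul_neg, Matrix.neg_mul, Matrix.trace_neg, Matrix.mul_assoc]
      linarith
    rw [h1, h2, h3]
    have := nsqm_nonneg (b * Y)
    linarith
  have hdet : IsUnit (1 - b).det := by
    rw [isUnit_iff_ne_zero]
    intro h0
    obtain ⟨v, hv, hv0⟩ := Matrix.exists_mulVec_eq_zero_iff.mpr h0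
    have h1 := hiso (Matrix.of (fun i _ => v i))
    have h2 : (1 - b) * Matrix.of (fun i (_ : Fin d) => v i) = 0 := by
      ext i j
      have h3 := congrFun hv0 i
      simp only [Matrix.mulVec, dotProduct, Pi.zero_apply] at h3
      rw [Matrix.mul_apply]
      simpa using h3
    rw [h2] at h1
    have h4 : nsqm (0 : Md d) = 0 := by simp [nsqm]
    rw [h4] at h1
    apply hv
    funext i
    have h5 := (entry_sq_le (Matrix.of (fun i (_ : Fin d) => v i)) i i).trans h1
    simp only [Matrix.of_apply] at h5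
    have h6 : v i ^ 2 = 0 := le_antisymm h5 (sq_nonneg _)
    simpa using h6
  have hinv : (1 - b) * (1 - b)⁻¹ = 1 := Matrix.mul_nonsing_inv _ hdet
  have hinv' : (1 - b)⁻¹ * (1 - b) = 1 := Matrix.nonsing_inv_mul _ hdet
  have htr : (1 - b).transpose = 1 + b := by
    rw [Matrix.transpose_sub, Matrix.transpose_one, hbt, sub_neg_eq_add]
  refine ⟨(1 - b)⁻¹ * (1 + b), ?_, ?_⟩
  · have h1 : ((1 - b)⁻¹ * (1 + b)).transpose = (1 - b) * ((1 - b)⁻¹).transpose := by
      rw [Matrix.transpose_mul, ← htr, Matrix.transpose_transpose]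
    have h2 : (1 + b) * ((1 - b)⁻¹).transpose = 1 := by
      rw [← htr, ← Matrix.transpose_mul, hinv', Matrix.transpose_one]
    rw [h1]
    have h3 : (1 + b) * (1 - b) = (1 - b) * (1 + b) := by noncomm_ring
    calc (1 - b)⁻¹ * (1 + b) * ((1 - b) * ((1 - b)⁻¹).transpose) =
          (1 - b)⁻¹ * ((1 + b) * (1 - b)) * ((1 - b)⁻¹).transpose := by
          simp only [Matrix.mul_assoc]
      _ = ((1 - b)⁻¹ * (1 - b)) * ((1 + b) * ((1 - b)⁻¹).transpose) := by
          rw [h3]
          simp only [Matrix.mul_assoc]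
      _ = 1 := by rw [hinv', h2, one_mul]
  · have h1 : (1 - b)⁻¹ * (1 + b) - 1 - β = (1 - b)⁻¹ * ((2 : ℝ) • (b * b)) := by
      have h2 : β = (2 : ℝ) • b := by
        rw [hb, smul_smul]
        norm_num
      have h3 : (1 - b) * ((1 - b)⁻¹ * (1 + b) - 1 - β) = (2 : ℝ) • (b * b) := by
        rw [mul_sub, mul_sub, ← mul_assoc, hinv, one_mul, mul_one, h2, Matrix.mul_smul, sub_mul,
          one_mul, smul_sub, two_smul, two_smul]
        abel
      rw [← h3, ← mul_assoc, hinv', one_mul]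
    rw [h1]
    have h4 := hiso ((1 - b)⁻¹ * ((2 : ℝ) • (b * b)))
    rw [← mul_assoc, hinv, one_mul, nsqm_smul] at h4
    have h5 := nsqm_mul_le b b
    have h6 : nsqm b = (1 / 2) ^ 2 * nsqm β := by rw [hb, nsqm_smul]
    have h7 := nsqm_nonneg β
    rw [h6] at h5
    nlinarith [sq_nonneg (nsqm β)]

/-! ### Expansion of the products -/

theorem OD_entry {O : Md d} (hO : OD O) (i j : Fin d) : |O i j| ≤ 1 := by
  have h1 : (O * O.transpose) i i = 1 := by
    rw [hO]
    simp
  rw [Matrix.mul_apply] at h1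
  have h2 : O i j ^ 2 ≤ 1 := by
    rw [← h1]
    have := Finset.single_le_sum (f := fun k => O i k * O.transpose k i)
      (fun k _ => by rw [Matrix.transpose_apply]; exact mul_self_nonneg _) (Finset.mem_univ j)
    simpa [Matrix.transpose_apply, sq] using this
  exact (sq_le_one_iff_abs_le_one _).mp h2

theorem one_entry (i j : Fin d) : |(1 : Md d) i j| ≤ 1 := by
  rw [Matrix.one_apply]
  split_ifs <;> simp

theorem inv_sqrt_le (d : ℕ) (hd : 1 ≤ d) : (Real.sqrt d)⁻¹ ≤ 1 := by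
  apply inv_le_one_of_one_le₀
  rw [Real.one_le_sqrt]
  exact_mod_cast hd

/-- distance of the matrices to the identity -/
noncomputable def dd (O : Fin K → Md d) : ℝ := ∑ p, nsqm (O p - 1)

theorem dd_nonneg (O : Fin K → Md d) : 0 ≤ dd O := Finset.sum_nonneg (fun _ _ => nsqm_nonneg _)

theorem pt_exp (d K : ℕ) : ∃ C : ℝ, 0 ≤ C ∧ ∀ O : Fin K → Md d, (∀ p, OD (O p)) →
    nsq (fun a => pt (Equiv.refl _) O a - u0 d K a - Lmd (fun p => O p - 1) a) ≤ C * dd O ^ 2 := by
  obtain ⟨C, hC, h⟩ := prod_exp (univ : Finset (Fin K))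
  refine ⟨(Fintype.card (Fin K × Fin 2 → Fin d) : ℝ) * C ^ 2, by positivity, ?_⟩
  intro O hO
  have h1 : ∀ a : Fin K × Fin 2 → Fin d,
      |pt (Equiv.refl _) O a - u0 d K a - Lmd (fun p => O p - 1) a| ≤ C * dd O := by
    intro a
    have h2 := h (fun p => (1 : Md d) (a (p, 0)) (a (p, 1)) / Real.sqrt d)
      (fun p => (O p - 1) (a (p, 0)) (a (p, 1)) / Real.sqrt d) ?_ ?_
    · have e1 : ∀ p, (1 : Md d) (a (p, 0)) (a (p, 1)) / Real.sqrt d +
          (O p - 1) (a (p, 0)) (a (p, 1)) / Real.sqrt d = O p (a (p, 0)) (a (p, 1)) / Real.sqrt d := by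
        intro p
        rw [← add_div, Matrix.sub_apply]
        congr 1
        ring
      simp only [e1] at h2
      have e2 : pt (Equiv.refl _) O a - u0 d K a - Lmd (fun p => O p - 1) a =
          ∏ p, O p (a (p, 0)) (a (p, 1)) / Real.sqrt d -
            ∏ p, (1 : Md d) (a (p, 0)) (a (p, 1)) / Real.sqrt d -
            ∑ p, ((O p - 1) (a (p, 0)) (a (p, 1)) / Real.sqrt d) *
              ∏ p' ∈ univ.erase p, (1 : Md d) (a (p', 0)) (a (p', 1)) / Real.sqrt d := rfl
      rw [e2]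
      refine h2.trans ?_
      gcongr
      unfold dd
      refine Finset.sum_le_sum (fun p _ => ?_)
      have hd : 1 ≤ d := Fin.pos (a (p, 0))
      have h3 := entry_sq_le (O p - 1) (a (p, 0)) (a (p, 1))
      rw [div_pow]
      refine (div_le_self (sq_nonneg _) ?_).trans h3
      rw [Real.sq_sqrt (Nat.cast_nonneg _)]
      exact_mod_cast hd
    · intro p _
      have hd : 1 ≤ d := Fin.pos (a (p, 0))
      rw [abs_div, abs_of_nonneg (Real.sqrt_nonneg _), div_eq_mul_inv]
      have h3 := one_entry (d := d) (a (p, 0)) (a (p, 1))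
      have h4 := inv_sqrt_le d hd
      have h5 : 0 ≤ (Real.sqrt d)⁻¹ := by positivity
      nlinarith [abs_nonneg ((1 : Md d) (a (p, 0)) (a (p, 1)))]
    · intro p _
      have hd : 1 ≤ d := Fin.pos (a (p, 0))
      rw [abs_div, abs_of_nonneg (Real.sqrt_nonneg _), div_eq_mul_inv, Matrix.sub_apply]
      have h3 := one_entry (d := d) (a (p, 0)) (a (p, 1))
      have h3' := OD_entry (hO p) (a (p, 0)) (a (p, 1))
      have h4 := inv_sqrt_le d hd
      have h5 : 0 ≤ (Real.sqrt d)⁻¹ := by positivity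
      have h6 : |O p (a (p, 0)) (a (p, 1)) - (1 : Md d) (a (p, 0)) (a (p, 1))| ≤ 2 :=
        (abs_sub _ _).trans (by linarith)
      nlinarith [abs_nonneg (O p (a (p, 0)) (a (p, 1)) - (1 : Md d) (a (p, 0)) (a (p, 1)))]
  unfold nsq
  calc ∑ a : Fin K × Fin 2 → Fin d,
      (pt (Equiv.refl _) O a - u0 d K a - Lmd (fun p => O p - 1) a) ^ 2 ≤
      ∑ _a : Fin K × Fin 2 → Fin d, (C * dd O) ^ 2 := by
        refine Finset.sum_le_sum (fun a _ => ?_)
        rw [← sq_abs]
        exact pow_le_pow_left₀ (abs_nonneg _) (h1 a) 2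
    _ = (Fintype.card (Fin K × Fin 2 → Fin d) : ℝ) * C ^ 2 * dd O ^ 2 := by
        rw [Finset.sum_const, Finset.card_univ, nsmul_eq_mul]
        ring

theorem Lmd_add (β γ : Fin K → Md d) :
    Lmd (fun p => β p + γ p) = fun a => Lmd β a + Lmd γ a := by
  funext a
  unfold Lmd
  rw [← Finset.sum_add_distrib]
  refine Finset.sum_congr rfl (fun p _ => ?_)
  simp only [Matrix.add_apply]
  ring

theorem Lmd_smul (c : ℝ) (β : Fin K → Md d) :
    Lmd (fun p => c • β p) = fun a => c * Lmd β a := by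
  funext a
  unfold Lmd
  rw [Finset.mul_sum]
  refine Finset.sum_congr rfl (fun p _ => ?_)
  simp only [Matrix.smul_apply, smul_eq_mul]
  ring

theorem Lmd_le (d K : ℕ) : ∃ C : ℝ, 0 ≤ C ∧ ∀ β : Fin K → Md d,
    nsq (Lmd β) ≤ C * ∑ p, nsqm (β p) := by
  refine ⟨(Fintype.card (Fin K × Fin 2 → Fin d) : ℝ) * K, by positivity, ?_⟩
  intro β
  have h1 : ∀ a : Fin K × Fin 2 → Fin d, Lmd β a ^ 2 ≤ K * ∑ p, nsqm (β p) := by
    intro a
    unfold Lmd
    have h2 := Finset.sum_mul_sq_le_sq_mul_sq (univ : Finset (Fin K)) (fun _ => (1 : ℝ))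
      (fun p => (β p (a (p, 0)) (a (p, 1)) / Real.sqrt d) *
        ∏ p' ∈ univ.erase p, (1 : Md d) (a (p', 0)) (a (p', 1)) / Real.sqrt d)
    simp only [one_mul, one_pow, Finset.sum_const, Finset.card_univ, Fintype.card_fin, nsmul_eq_mul,
      mul_one] at h2
    refine h2.trans ?_
    gcongr with p _
    have hd : 1 ≤ d := Fin.pos (a (p, 0))
    rw [mul_pow, div_pow]
    have h3 := entry_sq_le (β p) (a (p, 0)) (a (p, 1))
    have h4 : β p (a (p, 0)) (a (p, 1)) ^ 2 / Real.sqrt d ^ 2 ≤ nsqm (β p) := by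
      refine (div_le_self (sq_nonneg _) ?_).trans h3
      rw [Real.sq_sqrt (Nat.cast_nonneg _)]
      exact_mod_cast hd
    have h5 : (∏ p' ∈ univ.erase p, (1 : Md d) (a (p', 0)) (a (p', 1)) / Real.sqrt d) ^ 2 ≤ 1 := by
      rw [sq_le_one_iff_abs_le_one, Finset.abs_prod]
      refine Finset.prod_le_one (fun _ _ => abs_nonneg _) (fun p' _ => ?_)
      rw [abs_div, abs_of_nonneg (Real.sqrt_nonneg _), div_eq_mul_inv]
      have h6 := one_entry (d := d) (a (p', 0)) (a (p', 1))
      have h7 := inv_sqrt_le d hd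
      have h8 : 0 ≤ (Real.sqrt d)⁻¹ := by positivity
      nlinarith [abs_nonneg ((1 : Md d) (a (p', 0)) (a (p', 1)))]
    have h9 : 0 ≤ β p (a (p, 0)) (a (p, 1)) ^ 2 / Real.sqrt d ^ 2 := by positivity
    nlinarith [nsqm_nonneg (β p), sq_nonneg (∏ p' ∈ univ.erase p,
      (1 : Md d) (a (p', 0)) (a (p', 1)) / Real.sqrt d)]
  unfold nsq
  calc ∑ a : Fin K × Fin 2 → Fin d, Lmd β a ^ 2 ≤
      ∑ _a : Fin K × Fin 2 → Fin d, (K * ∑ p, nsqm (β p)) := Finset.sum_le_sum (fun a _ => h1 a)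
    _ = (Fintype.card (Fin K × Fin 2 → Fin d) : ℝ) * K * ∑ p, nsqm (β p) := by
        rw [Finset.sum_const, Finset.card_univ, nsmul_eq_mul]
        ring

/-! ### Scalar products -/

theorem ip_le {ι : Type} [Fintype ι] (x y : ι → ℝ) : |ip x y| ≤ Real.sqrt (nsq x) * Real.sqrt (nsq y) := by
  unfold ip
  rw [← Real.sqrt_mul (nsq_nonneg x)]
  apply Real.abs_le_sqrt
  exact Finset.sum_mul_sq_le_sq_mul_sq _ _ _

theorem ip_add_right {ι : Type} [Fintype ι] (x y z : ι → ℝ) :
    ip x (fun a => y a + z a) = ip x y + ip x z := by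
  unfold ip
  rw [← Finset.sum_add_distrib]
  refine Finset.sum_congr rfl (fun _ _ => by ring)

theorem nsq_add {ι : Type} [Fintype ι] (x y : ι → ℝ) :
    nsq (fun a => x a + y a) = nsq x + nsq y + 2 * ip x y := by
  unfold nsq ip
  rw [Finset.mul_sum, ← Finset.sum_add_distrib, ← Finset.sum_add_distrib]
  refine Finset.sum_congr rfl (fun _ _ => by ring)

theorem nsq_sub {ι : Type} [Fintype ι] (x y : ι → ℝ) :
    nsq (fun a => x a - y a) = nsq x + nsq y - 2 * ip x y := by
  unfold nsq ip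
  rw [Finset.mul_sum, ← Finset.sum_add_distrib, ← Finset.sum_sub_distrib]
  refine Finset.sum_congr rfl (fun _ _ => by ring)

/-- a vector orthogonal to the tangent space has a small scalar product with the differences -/
theorem ip_perp (d K : ℕ) : ∃ C : ℝ, 0 ≤ C ∧ ∀ g : (Fin K × Fin 2 → Fin d) → ℝ,
    (∀ γ : Fin K → Md d, (∀ p, (γ p).transpose = -(γ p)) → ip (Lmd γ) g = 0) →
    ∀ O : Fin K → Md d, (∀ p, OD (O p)) →
    |ip g (fun a => pt (Equiv.refl _) O a - u0 d K a)| ≤ C * Real.sqrt (nsq g) * dd O := by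
  obtain ⟨C1, hC1, h1⟩ := pt_exp d K
  obtain ⟨C2, hC2, h2⟩ := Lmd_le d K
  refine ⟨Real.sqrt C1 + Real.sqrt C2, by positivity, ?_⟩
  intro g hg O hO
  have hcomm : ∀ x y : (Fin K × Fin 2 → Fin d) → ℝ, ip x y = ip y x := by
    intro x y
    unfold ip
    exact Finset.sum_congr rfl (fun _ _ => mul_comm _ _)
  -- antisymmetric and symmetric part
  set α : Fin K → Md d := fun p => (1 / 2 : ℝ) • ((O p - 1) - (O p - 1).transpose) with hα
  set σ : Fin K → Md d := fun p => (1 / 2 : ℝ) • ((O p - 1) + (O p - 1).transpose) with hσ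
  have hsum : (fun p => O p - 1) = fun p => α p + σ p := by
    funext p
    rw [hα, hσ]
    simp only
    rw [← smul_add]
    have : (O p - 1) - (O p - 1).transpose + ((O p - 1) + (O p - 1).transpose) =
        (2 : ℝ) • (O p - 1) := by
      rw [two_smul]
      abel
    rw [this, smul_smul]
    norm_num
  have hαt : ∀ p, (α p).transpose = -(α p) := by
    intro p
    rw [hα]
    simp only
    rw [Matrix.transpose_smul, Matrix.transpose_sub (O p - 1), Matrix.transpose_transpose, ← smul_neg,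
      neg_sub]
  have hσn : ∀ p, nsqm (σ p) ≤ nsqm (O p - 1) ^ 2 := by
    intro p
    have e1 : (O p - 1) + (O p - 1).transpose = -((O p - 1) * (O p - 1).transpose) := by
      have e2 : O p * (O p).transpose = 1 := hO p
      rw [Matrix.transpose_sub, Matrix.transpose_one, mul_sub, sub_mul, e2, mul_one, one_mul]
      abel
    rw [hσ]
    simp only
    rw [nsqm_smul, e1, nsqm_neg]
    have e3 := nsqm_mul_le (O p - 1) (O p - 1).transpose
    rw [nsqm_transpose] at e3
    nlinarith [nsqm_nonneg (O p - 1), nsqm_nonneg ((O p - 1) * (O p - 1).transpose)]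
  set rem : (Fin K × Fin 2 → Fin d) → ℝ := fun a => pt (Equiv.refl _) O a - u0 d K a -
    Lmd (fun p => O p - 1) a with hrem
  have hdec : (fun a => pt (Equiv.refl _) O a - u0 d K a) = fun a => (Lmd α a + Lmd σ a) + rem a := by
    funext a
    have e1 := congrFun (Lmd_add α σ) a
    rw [← hsum] at e1
    rw [hrem]
    simp only
    rw [← e1]
    ring
  rw [hdec, ip_add_right, ip_add_right, hcomm g (Lmd α), hg α hαt, zero_add]
  have hb1 : |ip g (Lmd σ)| ≤ Real.sqrt (nsq g) * (Real.sqrt C2 * dd O) := by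
    refine (ip_le _ _).trans ?_
    gcongr
    have e1 : nsq (Lmd σ) ≤ C2 * dd O ^ 2 := by
      refine (h2 σ).trans ?_
      gcongr
      unfold dd
      refine (Finset.sum_le_sum (fun p _ => hσn p)).trans ?_
      rw [sq (∑ p, nsqm (O p - 1)), Finset.sum_mul]
      refine Finset.sum_le_sum (fun p _ => ?_)
      rw [sq]
      have := Finset.single_le_sum (f := fun p => nsqm (O p - 1)) (fun p _ => nsqm_nonneg _)
        (Finset.mem_univ p)
      exact mul_le_mul_of_nonneg_left this (nsqm_nonneg _)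
    calc Real.sqrt (nsq (Lmd σ)) ≤ Real.sqrt (C2 * dd O ^ 2) := Real.sqrt_le_sqrt e1
      _ = Real.sqrt C2 * dd O := by rw [Real.sqrt_mul hC2, Real.sqrt_sq (dd_nonneg O)]
  have hb2 : |ip g rem| ≤ Real.sqrt (nsq g) * (Real.sqrt C1 * dd O) := by
    refine (ip_le _ _).trans ?_
    gcongr
    calc Real.sqrt (nsq rem) ≤ Real.sqrt (C1 * dd O ^ 2) := Real.sqrt_le_sqrt (h1 O hO)
      _ = Real.sqrt C1 * dd O := by rw [Real.sqrt_mul hC1, Real.sqrt_sq (dd_nonneg O)]
  calc |ip g (Lmd σ) + ip g rem| ≤ |ip g (Lmd σ)| + |ip g rem| := abs_add_le _ _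
    _ ≤ (Real.sqrt C1 + Real.sqrt C2) * Real.sqrt (nsq g) * dd O := by
        nlinarith [hb1, hb2]

end

end Pool.Agent.Helper32.T6
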